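import Pool.Agent.H18.HF.Defs
import Pool.Agent.H18.TF.Div3
import Pool.Agent.H18.GIT.Global

/-!
# Theta functions with values in the semi-invariant polynomials
-/

set_option autoImplicit false

namespace H18.HF

open H18.TF Q47.FL MvPolynomial Matrix Topology
open scoped Manifold ContDiff

section scale

variable {g h : ℕ} {P P' : Matrix (Fin g) (Fin h) ℂ} {α α' : Matrix (Fin h) (Fin g) ℂ}
  {β β' : (Fin h → ℤ) → ℂ} {A : Matrix (Fin g) (Fin g) ℂ} {c : Fin g → ℂ}
  {γ : Matrix (Fin h) (Fin h) ℤ} {S : Matrix (Fin g) (Fin g) ℂ} {r : Fin g → ℂ} {s : ℂ}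

theorem bil_scale (N : ℂ) (α : Matrix (Fin h) (Fin g) ℂ) (x : Fin h → ℂ) (v : Fin g → ℂ) :
    bil (N • α) x v = N * bil α x v := by
  rw [bil, bil, Matrix.smul_mulVec, dotProduct_smul, smul_eq_mul]

theorem quad_scale (N : ℂ) (S : Matrix (Fin g) (Fin g) ℂ) (r : Fin g → ℂ) (s : ℂ) (v : Fin g → ℂ) :
    quad (N • S) (N • r) (N * s) v = N * quad S r s v := by
  rw [quad, quad, Matrix.smul_mulVec, dotProduct_smul, smul_dotProduct, smul_eq_mul, smul_eq_mul]
  ring

theorem factor_scale (hf : Factor P α β) (N : ℕ) :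
    Factor P ((N : ℂ) • α) (fun k => N * β k) := ⟨fun k k' => by
  have := (hf.cocycle k k').int_mul N
  convert this using 1
  rw [bil_scale]
  push_cast
  ring⟩

theorem change_scale (hC : Change P P' α α' β β' A c γ S r s) (N : ℕ) :
    Change P P' ((N : ℂ) • α) ((N : ℂ) • α') (fun k => N * β k) (fun k => N * β' k) A c γ
      ((N : ℂ) • S) ((N : ℂ) • r) (N * s) where
  lattice := hC.lattice
  symm := by rw [Matrix.transpose_smul, hC.symm]
  compat k := by
    obtain ⟨z, hz⟩ := hC.compat k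
    refine ⟨N * z, fun v => ?_⟩
    rw [quad_scale, bil_scale, bil_scale, quad_scale]
    push_cast
    linear_combination (N : ℂ) * hz v

end scale

section poly

variable {q : ℕ}

theorem ev_add (x : Matrix (Fin q) (Fin q) ℂ) (f f' : MvPolynomial (Fin q × Fin q) ℂ) :
    ev x (f + f') = ev x f + ev x f' := by rw [ev, map_add]; rfl

theorem ev_mul (x : Matrix (Fin q) (Fin q) ℂ) (f f' : MvPolynomial (Fin q × Fin q) ℂ) :
    ev x (f * f') = ev x f * ev x f' := by rw [ev, map_mul]; rfl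

theorem ev_C (x : Matrix (Fin q) (Fin q) ℂ) (a : ℂ) : ev x (C a) = a := by rw [ev, eval_C]

theorem ev_sum {κ : Type*} (x : Matrix (Fin q) (Fin q) ℂ) (s : Finset κ)
    (f : κ → MvPolynomial (Fin q × Fin q) ℂ) : ev x (∑ t ∈ s, f t) = ∑ t ∈ s, ev x (f t) := by
  rw [ev, map_sum]; rfl

variable {g h : ℕ}

/-- The normalized translate. -/
noncomputable def trp (P : Matrix (Fin g) (Fin h) ℂ) (α : Matrix (Fin h) (Fin g) ℂ)
    (β : (Fin h → ℤ) → ℂ) (f : (Fin g → ℂ) → MvPolynomial (Fin q × Fin q) ℂ) (x : Fin h → ℂ)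
    (v : Fin g → ℂ) : MvPolynomial (Fin q × Fin q) ℂ :=
  C (ee (-(1 / 2) * bil α x (P *ᵥ x) - (1 / 2) * (x ⬝ᵥ Factor.ell P α β) - bil α x v)) *
    f (v + P *ᵥ x)

/-- The power sum of the torsion translates. -/
noncomputable def psump (P : Matrix (Fin g) (Fin h) ℂ) (α : Matrix (Fin h) (Fin g) ℂ)
    (β : (Fin h → ℤ) → ℂ) (f : (Fin g → ℂ) → MvPolynomial (Fin q × Fin q) ℂ) (e : ℕ) [NeZero e]
    (K : ℕ) (v : Fin g → ℂ) : MvPolynomial (Fin q × Fin q) ℂ :=
  ∑ t : Fin h → ZMod e, trp P α β f ((1 / e : ℂ) • ic (rep t)) v ^ (2 * e * K)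

variable {P : Matrix (Fin g) (Fin h) ℂ} {α : Matrix (Fin h) (Fin g) ℂ} {β : (Fin h → ℤ) → ℂ}
  {f : (Fin g → ℂ) → MvPolynomial (Fin q × Fin q) ℂ}

theorem ev_trp (y : Matrix (Fin q) (Fin q) ℂ) (x : Fin h → ℂ) (v : Fin g → ℂ) :
    ev y (trp P α β f x v) = tr P α β (fun v => ev y (f v)) x v := by
  rw [trp, ev_mul, ev_C, tr]

theorem ev_psump (y : Matrix (Fin q) (Fin q) ℂ) (e : ℕ) [NeZero e] (K : ℕ) (v : Fin g → ℂ) :
    ev y (psump P α β f e K v) = TF.psum P α β (fun v => ev y (f v)) e K v := by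
  rw [psump, ev_sum, TF.psum]
  refine Finset.sum_congr rfl fun t _ => ?_
  rw [GIT.ev_pow, ev_trp, T, ← pow_mul]

end poly

section coeffs

variable {E : Type*} [NormedAddCommGroup E] [NormedSpace ℂ E] {H : Type*} [TopologicalSpace H]
  {I : ModelWithCorners ℂ E H} {X : Type*} [TopologicalSpace X] [ChartedSpace H X] {x₀ : X}
  {σ : Type*}

theorem mdiff_sum {κ : Type*} {s : Finset κ} {f : κ → X → ℂ}
    (hf : ∀ t ∈ s, MDifferentiableAt I 𝓘(ℂ) (f t) x₀) :
    MDifferentiableAt I 𝓘(ℂ) (fun x => ∑ t ∈ s, f t x) x₀ := by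
  classical
  induction s using Finset.induction_on with
  | empty =>
    simp only [Finset.sum_empty]
    exact mdifferentiableAt_const
  | insert t s ht ih =>
    simp only [Finset.sum_insert ht]
    exact (hf t (Finset.mem_insert_self t s)).add (ih fun u hu => hf u (Finset.mem_insert_of_mem hu))

/-- The coefficients of the polynomial `f x` are holomorphic functions of `x` at `x₀`. -/
def HolC (I : ModelWithCorners ℂ E H) (f : X → MvPolynomial σ ℂ) (x₀ : X) : Prop :=
  ∀ a, MDifferentiableAt I 𝓘(ℂ) (fun x => coeff a (f x)) x₀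

theorem HolC.mul {f f' : X → MvPolynomial σ ℂ} (hf : HolC I f x₀) (hf' : HolC I f' x₀) :
    HolC I (fun x => f x * f' x) x₀ := by
  classical
  intro a
  simp only [coeff_mul]
  exact mdiff_sum fun t _ => (hf t.1).mul (hf' t.2)

theorem HolC.C_mul {f : X → MvPolynomial σ ℂ} (hf : HolC I f x₀) {c : X → ℂ}
    (hc : MDifferentiableAt I 𝓘(ℂ) c x₀) : HolC I (fun x => C (c x) * f x) x₀ := by
  intro a
  simp only [coeff_C_mul]
  exact hc.mul (hf a)

theorem HolC.pow {f : X → MvPolynomial σ ℂ} (hf : HolC I f x₀) (k : ℕ) :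
    HolC I (fun x => f x ^ k) x₀ := by
  induction k with
  | zero =>
    intro a
    simp only [pow_zero]
    exact mdifferentiableAt_const
  | succ k ih =>
    simp only [pow_succ]
    exact ih.mul hf

theorem HolC.sum {κ : Type*} {s : Finset κ} {f : κ → X → MvPolynomial σ ℂ}
    (hf : ∀ t ∈ s, HolC I (f t) x₀) : HolC I (fun x => ∑ t ∈ s, f t x) x₀ := by
  intro a
  simp only [coeff_sum]
  exact mdiff_sum fun t ht => hf t ht a

theorem HolC.evC {q D : ℕ} {f : X → MvPolynomial (Fin q × Fin q) ℂ} (hf : HolC I f x₀)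
    (c : MvPolynomial (Fin q × Fin q) (GIT.Cf q D)) : HolC I (fun x => GIT.evC c (f x)) x₀ := by
  have hspec : ∀ Q : GIT.Cf q D,
      MDifferentiableAt I 𝓘(ℂ) (fun x => GIT.spec D (f x) Q) x₀ := by
    intro Q
    induction Q using MvPolynomial.induction_on with
    | C a =>
      have h1 : (fun x => GIT.spec D (f x) (C a)) = fun _ => a := by
        funext x
        rw [GIT.spec, aeval_C]
        rfl
      rw [h1]
      exact mdifferentiableAt_const
    | add P Q hP hQ =>
      simp only [map_add]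
      exact hP.add hQ
    | mul_X P β hP =>
      simp only [map_mul]
      refine hP.mul ?_
      have h1 : (fun x => GIT.spec D (f x) (MvPolynomial.X β)) = fun x => coeff β.1 (f x) := by
        funext x
        rw [GIT.spec, aeval_X]
      rw [h1]
      exact hf _
  intro a
  have h1 : (fun x => coeff a (GIT.evC c (f x))) = fun x => GIT.spec D (f x) (coeff a c) := by
    funext x
    rw [GIT.evC, coeff_map]
    rfl
  rw [h1]
  exact hspec _

end coeffs

section homog

variable {q : ℕ}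

/-- The value of a form of degree `D`. -/
theorem ev_eq_sum {D : ℕ} {f : MvPolynomial (Fin q × Fin q) ℂ} (hf : f.IsHomogeneous D)
    (x : Matrix (Fin q) (Fin q) ℂ) :
    ev x f = ∑ β : GIT.Jx q D, coeff β.1 f * ∏ y : Fin q × Fin q, x y.1 y.2 ^ β.1 y := by
  classical
  rw [ev, eval_eq']
  have h2 : ∑ β : GIT.Jx q D, coeff β.1 f * ∏ y : Fin q × Fin q, x y.1 y.2 ^ β.1 y =
      ∑ β ∈ (Finset.univ : Finset (GIT.Jx q D)).image Subtype.val,
        coeff β f * ∏ y : Fin q × Fin q, x y.1 y.2 ^ β y := by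
    rw [Finset.sum_image (fun a _ c _ h => Subtype.ext h)]
  rw [h2]
  refine Finset.sum_subset (fun a ha => ?_) fun β _ hβ => ?_
  · refine Finset.mem_image.2 ⟨⟨a, ?_⟩, Finset.mem_univ _, rfl⟩
    by_contra h3
    exact (mem_support_iff.1 ha) (hf.coeff_eq_zero h3)
  · rw [notMem_support_iff.1 hβ, zero_mul]

/-- The value depends continuously on the coefficients and the point. -/
theorem continuousAt_ev {X : Type*} [TopologicalSpace X] {D : ℕ}
    {f : X → MvPolynomial (Fin q × Fin q) ℂ} {x₀ : X}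
    (hhom : ∀ᶠ x in 𝓝 x₀, (f x).IsHomogeneous D)
    (hf : ∀ a, ContinuousAt (fun x => coeff a (f x)) x₀) {y : X → Matrix (Fin q) (Fin q) ℂ}
    (hy : ContinuousAt y x₀) : ContinuousAt (fun x => ev (y x) (f x)) x₀ := by
  have h1 : ContinuousAt (fun x => ∑ β : GIT.Jx q D, coeff β.1 (f x) *
      ∏ z : Fin q × Fin q, y x z.1 z.2 ^ β.1 z) x₀ := by
    refine tendsto_finsetSum _ fun β _ => ?_
    refine Filter.Tendsto.mul (hf β.1) ?_
    refine tendsto_finsetProd _ fun z _ => ?_
    refine Filter.Tendsto.pow ?_ _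
    exact ((continuous_apply z.2).continuousAt.tendsto.comp
      ((continuous_apply z.1).continuousAt.tendsto.comp hy))
  refine h1.congr ?_
  filter_upwards [hhom] with x hx
  exact (ev_eq_sum hx _).symm

end homog

end H18.HF
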