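import Pool.Agent.H18.TF.DivDefs
import Pool.Graph.R_pool_sql_team_seeded_3997aac3.Q47.FL.Defs

/-!
# Smooth families of compact homogeneous Kähler manifolds, and pairs on them

By the theorem of Borel and Remmert a compact homogeneous Kähler manifold is the product of a complex
torus and a flag variety. Let the weakly increasing function `b : Fin q → ℕ` describe a type of partial
flags in `ℂ^q`: the flag variety is `GL_q / P`, where the group `P` of all invertible `x` with
`x_{ij} = 0` for `b j < b i` acts from the right. The semi-invariant polynomials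
`IsSemiInvariant b d` on the `q × q` matrices are the sections of the line bundle `O(d)` on `GL_q / P`,
and `O(-anti b)` is the canonical bundle of `GL_q / P`; log canonical pairs `IsLogCanonical b m f` and
nef line bundles `IsFibreNef b l` on `GL_q / P` are as in `Q47.FL.Defs`.
-/

set_option autoImplicit false

namespace H18.HF

open H18.TF Q47.FL MvPolynomial Matrix
open scoped Manifold ContDiff

universe u v

section

variable (n : ℕ) (B : Type u) [TopologicalSpace B] [ChartedSpace (Fin n → ℂ) B]

/-- A smooth family `Y → B` of compact homogeneous Kähler manifolds over the complex manifold `B` of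
dimension `n`, the products of complex tori of dimension `g` and of a flag variety of `GL_q`. The
part of `Y` over the domain `U i` of a chart of `B` is the product of the part of the family of tori
over `U i` (see `TorusBundle`) and of `GL_q / P`; over `U i ∩ U j` the point `(p, v, x P)` of the
`j`-th product is identified with the point `(p, A i j p v + c i j p, M i j p x P)` of the `i`-th
product. The matrices `M i j` satisfy the cocycle condition up to scalars. (The linear part of an
isomorphism of products of tori and flag varieties is constant along the tori.) -/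
structure HomogeneousBundle (g q : ℕ) (ι : Type v) extends TorusBundle n B g ι where
  M : ι → ι → B → Matrix (Fin q) (Fin q) ℂ
  holo_M : ∀ i j k l, Holo (n := n) ((chart i).source ∩ (chart j).source) fun p => M i j p k l
  det_M : ∀ i j, ∀ p ∈ (chart i).source ∩ (chart j).source, (M i j p).det ≠ 0
  cocycle_M : ∀ i j k, ∀ p ∈ (chart i).source ∩ (chart j).source ∩ (chart k).source,
    ∃ a : ℂ, a ≠ 0 ∧ M i j p * M j k p = a • M i k p

variable {n} {B} {g q : ℕ} {ι : Type v}

/-- An effective divisor `m Δ` on `Y` which does not contain a fibre of `Y → B`, of the class of the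
weight `d` on the flag varieties: its inverse image in `U i × ℂ^g × GL_q` is given by the function
`F i p v`, which is a semi-invariant polynomial in the entries of `x ∈ GL_q` of the weight `d`, whose
coefficients are holomorphic functions of `(p, v)`. The function `F i` is multiplied by
`exp (2 π i (bil (α i p) m v + β i p m))` under the translation by the period `P i p m`, and over
`U i ∩ U j` the functions `F i` and `F j` differ by the factor `exp (2 π i quad v)` (see
`TorusBundle.Divisor`). -/
structure HomogeneousBundle.Divisor (Y : HomogeneousBundle n B g q ι) (b : Fin q → ℕ)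
    (d : ℕ → ℕ) where
  F : ι → B → (Fin g → ℂ) → MvPolynomial (Fin q × Fin q) ℂ
  α : ι → B → Matrix (Fin (2 * g)) (Fin g) ℂ
  β : ι → B → (Fin (2 * g) → ℤ) → ℂ
  S : ι → ι → B → Matrix (Fin g) (Fin g) ℂ
  r : ι → ι → B → Fin g → ℂ
  s : ι → ι → B → ℂ
  holo_F : ∀ a, Y.HoloTotal fun i p v => coeff a (F i p v)
  holo_α : ∀ i l a, Holo (n := n) (Y.U i) fun p => α i p l a
  holo_β : ∀ i k, Holo (n := n) (Y.U i) fun p => β i p k
  symm : ∀ i j, ∀ p ∈ Y.U i ∩ Y.U j, (S i j p)ᵀ = S i j p
  semi : ∀ i, ∀ p ∈ Y.U i, ∀ v, IsSemiInvariant b d (F i p v)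
  exists_ne_zero : ∀ i, ∀ p ∈ Y.U i, ∃ v, F i p v ≠ 0
  period : ∀ i, ∀ p ∈ Y.U i, ∀ k v,
    F i p (v + Y.P i p *ᵥ ic k) = C (ee (bil (α i p) (ic k) v + β i p k)) * F i p v
  change : ∀ i j, ∀ p ∈ Y.U i ∩ Y.U j, ∀ v (x : Matrix (Fin q) (Fin q) ℂ),
    ev (Y.M i j p * x) (F i p (Y.A i j p *ᵥ v + Y.c i j p)) =
      ee (quad (S i j p) (r i j p) (s i j p) v) * ev x (F j p v)

variable {Y : HomogeneousBundle n B g q ι} {b : Fin q → ℕ} {d : ℕ → ℕ}

/-- The functions `G i` define a global section of the `N`-th power of the line bundle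
`O_Y(m (K_{Y/A} + Δ)) ⊗ M` on `Y`, where `A → B` is the family of tori, `Y → A` is the bundle of flag
varieties and `M` is the inverse image of the line bundle on `B` with the transition functions
`μ i j`: `G i p v` is a semi-invariant polynomial of the weight `N (d - m anti)`, whose coefficients
are holomorphic functions of `(p, v)`, and the expressions `G i (ω ^ m / F i) ^ N μ_i ^ N` agree, where
`ω` is the left invariant form on `GL_q` with values in the canonical bundle of `GL_q / P` and `μ_i` is
the generator of `M` on `U i`, so that `μ_i = μ i j μ_j`. -/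
structure HomogeneousBundle.Divisor.IsSection (D : Y.Divisor b d) (m : ℕ) (μ : ι → ι → B → ℂ)
    (N : ℕ) (G : ι → B → (Fin g → ℂ) → MvPolynomial (Fin q × Fin q) ℂ) : Prop where
  holo : ∀ a, Y.HoloTotal fun i p v => coeff a (G i p v)
  semi : ∃ d' : ℕ → ℕ, (∀ j, (d' (b j) : ℤ) = N * (d (b j) - m * anti b j)) ∧
    ∀ i, ∀ p ∈ Y.U i, ∀ v, IsSemiInvariant b d' (G i p v)
  period : ∀ i, ∀ p ∈ Y.U i, ∀ k v, G i p (v + Y.P i p *ᵥ ic k) =
    C (ee (bil (D.α i p) (ic k) v + D.β i p k) ^ N) * G i p v
  change : ∀ i j, ∀ p ∈ Y.U i ∩ Y.U j, ∀ v (x : Matrix (Fin q) (Fin q) ℂ),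
    ev (Y.M i j p * x) (G i p (Y.A i j p *ᵥ v + Y.c i j p)) * μ i j p ^ N =
      ee (quad (D.S i j p) (D.r i j p) (D.s i j p) v) ^ N * ev x (G j p v)

/-- The line bundle `O_Y(m (K_{Y/A} + Δ)) ⊗ M` on `Y` has the `N`-th power which is generated by its
global sections at all points over the subset `Z` of `B`. -/
def HomogeneousBundle.Divisor.IsGenerated (D : Y.Divisor b d) (m : ℕ) (μ : ι → ι → B → ℂ)
    (Z : Set B) (N : ℕ) : Prop :=
  ∀ p ∈ Z, ∀ i, p ∈ Y.U i → ∀ v, ∀ x : Matrix (Fin q) (Fin q) ℂ, x.det ≠ 0 →
    ∃ G, D.IsSection m μ N G ∧ ev x (G i p v) ≠ 0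

/-- The transition functions of the `m`-th power of the line bundle `λ = π_* K_{A/B}` on `B`, so that
`O_Y(m (K_{Y/A} + Δ)) ⊗ λ ^ m = O_Y(m (K_{Y/B} + Δ))`. (The transition functions of `(K_B ⊗ λ) ^ m` are
`TorusBundle.canonical`, and `O_Y(m (K_{Y/A} + Δ)) ⊗ (K_B ⊗ λ) ^ m = O_Y(m (K_Y + Δ))`.) -/
noncomputable def HomogeneousBundle.relative (Y : HomogeneousBundle n B g q ι) (m : ℕ) (i j : ι) (p : B) : ℂ :=
  (Y.A i j p).det ^ m

end

end H18.HF
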