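import Pool.Agent.H18.HF.Sec

/-!
# The relative log canonical bundle of a family of pairs on homogeneous manifolds
-/

set_option autoImplicit false

namespace H18.HF

open H18.TF Q47.FL MvPolynomial Matrix Topology Filter
open scoped Manifold ContDiff

universe u v

variable {n : ℕ} {B : Type u} [TopologicalSpace B] [ChartedSpace (Fin n → ℂ) B] {g q : ℕ}
  {ι : Type v} {Y : HomogeneousBundle n B g q ι} {b : Fin q → ℕ} {d : ℕ → ℕ} {m : ℕ}

namespace HomogeneousBundle.Divisor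

variable (D : Y.Divisor b d)

variable {D} in
theorem IsSection.pow {μ : ι → ι → B → ℂ} {N : ℕ}
    {G : ι → B → (Fin g → ℂ) → MvPolynomial (Fin q × Fin q) ℂ} (hG : D.IsSection m μ N G) (j : ℕ) :
    D.IsSection m μ (N * j) fun i p v => G i p v ^ j where
  holo a i := by
    rintro ⟨p, v⟩ ⟨hp, -⟩
    have h1 : HolC (𝓘(ℂ, Fin n → ℂ).prod 𝓘(ℂ, Fin g → ℂ))
        (fun z : B × (Fin g → ℂ) => G i z.1 z.2) (p, v) := fun a => (hG.holo a).at hp v
    exact (h1.pow j a).mdifferentiableWithinAt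
  semi := by
    obtain ⟨d', hd', hsemi⟩ := hG.semi
    refine ⟨fun k => j * d' k, fun k => ?_, fun i p hp v => ?_⟩
    · push_cast
      rw [hd']
      ring
    · have h1 := GIT.semi_pow_mul (d' := fun k => j * d' k) (hsemi i p hp v) j (fun _ => rfl) 1
      rwa [C_1, one_mul] at h1
  period i p hp k v := by rw [hG.period i p hp, mul_pow, pow_mul, C_pow (ee _ ^ N)]
  change i j' p hp v x := by
    rw [GIT.ev_pow, GIT.ev_pow, pow_mul, ← mul_pow, hG.change i j' p hp, mul_pow, pow_mul]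

variable {D} in
theorem IsSection.pow' {μ : ι → ι → B → ℂ} {N : ℕ}
    {G : ι → B → (Fin g → ℂ) → MvPolynomial (Fin q × Fin q) ℂ} (hG : D.IsSection m μ N G) (j : ℕ) :
    D.IsSection m μ (j * N) fun i p v => G i p v ^ j := by
  rw [mul_comm]; exact hG.pow j

/-- At each point there is a section of a power which does not vanish. -/
theorem exists_isSection (hb : Monotone b) (hm : 1 ≤ m)
    (hnef : IsFibreNef b fun j => d (b j) - m * anti b j) {i : ι} {p : B} (hp : p ∈ Y.U i)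
    (hlc : ∃ v₀, IsLogCanonical b m (D.F i p v₀)) (v : Fin g → ℂ)
    (x : Matrix (Fin q) (Fin q) ℂ) (hx : x.det ≠ 0) :
    ∃ N, 1 ≤ N ∧ ∃ G, D.IsSection m (fun _ _ _ => 1) N G ∧ ev x (G i p v) ≠ 0 := by
  obtain ⟨l, hl, hlb, hld⟩ := GIT.exists_l hb hnef
  obtain ⟨N, hN, hN2⟩ := GIT.uniform hb hm hl hlb hld
  obtain ⟨v₀, hv₀⟩ := hlc
  obtain ⟨c, hc, hne⟩ := hN2 (D.F i p v₀) (D.semi i p hp v₀) hv₀ x hx
  set F : (Fin g → ℂ) → ℂ := fun v => ev x (GIT.evC c (D.F i p v)) with hF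
  have hcont : Continuous F := by
    obtain ⟨d', hd'⟩ := GIT.exists_d' b (fun j => N * l j) fun i j hij => by rw [hlb i j hij]
    rw [continuous_iff_continuousAt]
    intro v
    refine continuousAt_ev (D := ∑ j, d' (b j)) (Eventually.of_forall fun v => ?_) (fun a => ?_)
      continuousAt_const
    · have hhom := hom_of_semi' (D.semi i p hp v)
      refine hom_of_semi' (b := b) ⟨fun x j t => ?_, fun x j k t hjk hbjk =>
        hc.shear _ hhom x j k t hjk hbjk⟩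
      rw [hc.scale _ hhom, ← pow_mul, hd', mul_comm N]
    · have h1 : HolC (𝓘(ℂ, Fin n → ℂ).prod 𝓘(ℂ, Fin g → ℂ))
          (fun z : B × (Fin g → ℂ) => D.F i z.1 z.2) (p, v) := fun a => (D.holo_F a).at hp v
      exact (h1.evC c a).continuousAt.comp (f := fun v : Fin g → ℂ => (p, v))
        (Continuous.prodMk_right p).continuousAt
  obtain ⟨e, he, t, ht⟩ := exists_translate (Y.lattice i p hp) hcont ⟨v₀, hne⟩ v
  have : NeZero e := ⟨he⟩
  have hf := factor_scale (D.factor hp) N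
  have hper : ∀ k v, F (v + Y.P i p *ᵥ ic k) =
      ee (bil ((N : ℂ) • D.α i p) (ic k) v + N * D.β i p k) * F v := by
    intro k v
    simp only [hF]
    rw [D.period i p hp, hc.smul _ (hom_of_semi' (D.semi i p hp v)), ev_mul, ev_C, bil_scale,
      ← mul_add, ee_nat_mul]
  have h1 : T (Y.P i p) ((N : ℂ) • D.α i p) (fun k => N * D.β i p k) F e t v ≠ 0 := by
    rw [T, tr]
    exact pow_ne_zero _ (mul_ne_zero (ee_ne_zero _) ht)
  have h2 : T (Y.P i p) ((N : ℂ) • D.α i p) (fun k => N * D.β i p k) F e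
      (rep fun k => (t k : ZMod e)) v ≠ 0 := by
    rwa [T_congr hf he hper (t' := t) (fun k => cast_rep _ _)]
  obtain ⟨K, hK, hneK⟩ := exists_psum_ne_zero (fun t : Fin (2 * g) → ZMod e =>
    T (Y.P i p) ((N : ℂ) • D.α i p) (fun k => N * D.β i p k) F e (rep t) v) ⟨_, h2⟩
  refine ⟨N * (2 * e * K), Nat.mul_pos hN (Nat.mul_pos (Nat.mul_pos two_pos (Nat.pos_of_ne_zero he)) hK),
    _, D.isSection_sec hlb hld hc e K, ?_⟩
  rw [D.ev_sec]
  exact hneK

/-- Near one fibre one power is generated by its sections. -/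
theorem exists_near (hb : Monotone b) (hm : 1 ≤ m)
    (hnef : IsFibreNef b fun j => d (b j) - m * anti b j) (p : B)
    (hlc : ∀ i, p ∈ Y.U i → ∃ v₀, IsLogCanonical b m (D.F i p v₀)) :
    ∃ N, 1 ≤ N ∧ ∀ᶠ p' in 𝓝 p, ∀ i, p' ∈ Y.U i → ∀ v, ∀ x : Matrix (Fin q) (Fin q) ℂ, x.det ≠ 0 →
      ∃ G, D.IsSection m (fun _ _ _ => 1) N G ∧ ev x (G i p' v) ≠ 0 := by
  obtain ⟨i, hi⟩ := Y.cover p
  have hi' : p ∈ Y.U i := hi
  set Q : Set ((Fin (2 * g) → ℝ) × Matrix (Fin q) (Fin q) ℂ) :=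
    Set.Icc 0 1 ×ˢ {u | uᴴ * u = 1} with hQ
  have hQc : IsCompact Q := isCompact_Icc.prod (isCompact_unitary q)
  have h1 : ∃ N, 1 ≤ N ∧ ∀ᶠ p' in 𝓝 p, ∀ z ∈ Q, ∃ G, D.IsSection m (fun _ _ _ => 1) N G ∧
      ev z.2 (G i p' (Y.P i p' *ᵥ fun l => ((z.1 l : ℝ) : ℂ))) ≠ 0 := by
    refine hQc.induction_on (p := fun s => ∃ N, 1 ≤ N ∧ ∀ᶠ p' in 𝓝 p, ∀ z ∈ s,
      ∃ G, D.IsSection m (fun _ _ _ => 1) N G ∧
        ev z.2 (G i p' (Y.P i p' *ᵥ fun l => ((z.1 l : ℝ) : ℂ))) ≠ 0) ?_ ?_ ?_ ?_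
    · exact ⟨1, le_refl 1, Eventually.of_forall fun p' z hz => absurd hz (Set.notMem_empty z)⟩
    · rintro s t hst ⟨N, hN, h⟩
      exact ⟨N, hN, h.mono fun p' hp' z hz => hp' z (hst hz)⟩
    · rintro s t ⟨N, hN, h⟩ ⟨N', hN', h'⟩
      refine ⟨N * N', Nat.mul_pos hN hN', ?_⟩
      filter_upwards [h, h'] with p' hp hp'
      rintro z (hz | hz)
      · obtain ⟨G, hG, hne⟩ := hp z hz
        refine ⟨_, hG.pow N', ?_⟩
        rw [GIT.ev_pow]
        exact pow_ne_zero _ hne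
      · obtain ⟨G, hG, hne⟩ := hp' z hz
        refine ⟨_, hG.pow' N, ?_⟩
        rw [GIT.ev_pow]
        exact pow_ne_zero _ hne
    · rintro ⟨x, u⟩ ⟨-, hu⟩
      obtain ⟨N, hN, G, hG, hne⟩ := D.exists_isSection hb hm hnef hi' (hlc i hi')
        (Y.P i p *ᵥ fun l => ((x l : ℝ) : ℂ)) u (det_ne_zero_of_unitary hu)
      obtain ⟨d', -, hsemi⟩ := hG.semi
      have hc : ContinuousAt (fun z : B × ((Fin (2 * g) → ℝ) × Matrix (Fin q) (Fin q) ℂ) =>
          ev z.2.2 (G i z.1 (Y.P i z.1 *ᵥ fun l => ((z.2.1 l : ℝ) : ℂ)))) (p, (x, u)) := by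
        have h2 := continuousAt_joint hG.holo hsemi hi' (Y.P i p *ᵥ fun l => ((x l : ℝ) : ℂ)) u
        have h3 : ContinuousAt (fun z : B × ((Fin (2 * g) → ℝ) × Matrix (Fin q) (Fin q) ℂ) =>
            ((z.1, Y.P i z.1 *ᵥ fun l => ((z.2.1 l : ℝ) : ℂ)), z.2.2)) (p, (x, u)) := by
          refine ContinuousAt.prodMk (continuousAt_fst.prodMk (continuousAt_pi.2 fun a => ?_))
            (continuousAt_snd.comp (f := fun z : B × ((Fin (2 * g) → ℝ) ×
              Matrix (Fin q) (Fin q) ℂ) => z.2) continuousAt_snd)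
          simp only [Matrix.mulVec, dotProduct]
          refine tendsto_finsetSum _ fun l _ => ?_
          have h4 : ContinuousAt (fun z : B × ((Fin (2 * g) → ℝ) × Matrix (Fin q) (Fin q) ℂ) =>
              Y.P i z.1 a l) (p, (x, u)) :=
            ContinuousAt.comp (f := fun z : B × ((Fin (2 * g) → ℝ) ×
              Matrix (Fin q) (Fin q) ℂ) => z.1) (g := fun q : B => Y.P i q a l)
              ((Y.holo_P i a l).mdifferentiableAt
                ((TorusBundle.isOpen_U i).mem_nhds hi')).continuousAt continuousAt_fst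
          have h5 : ContinuousAt (fun z : B × ((Fin (2 * g) → ℝ) × Matrix (Fin q) (Fin q) ℂ) =>
              ((z.2.1 l : ℝ) : ℂ)) (p, (x, u)) := by
            have h6 : Continuous (fun z : B × ((Fin (2 * g) → ℝ) × Matrix (Fin q) (Fin q) ℂ) =>
              ((z.2.1 l : ℝ) : ℂ)) :=
              Complex.continuous_ofReal.comp ((continuous_apply l).comp
                (continuous_fst.comp continuous_snd))
            exact h6.continuousAt
          exact h4.mul h5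
        exact ContinuousAt.comp (f := fun z : B × ((Fin (2 * g) → ℝ) ×
          Matrix (Fin q) (Fin q) ℂ) => ((z.1, Y.P i z.1 *ᵥ fun l => ((z.2.1 l : ℝ) : ℂ)), z.2.2))
          (g := fun z : (B × (Fin g → ℂ)) × Matrix (Fin q) (Fin q) ℂ => ev z.2 (G i z.1.1 z.1.2))
          h2 h3
      have hev := hc.eventually_ne hne
      rw [nhds_prod_eq, eventually_prod_iff] at hev
      obtain ⟨pa, hpa, pb, hpb, hab⟩ := hev
      refine ⟨{x' | pb x'}, mem_nhdsWithin_of_mem_nhds hpb, N, hN, ?_⟩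
      filter_upwards [hpa] with p' hp' x' hx'
      exact ⟨G, hG, hab hp' hx'⟩
  obtain ⟨N, hN, h2⟩ := h1
  refine ⟨N, hN, ?_⟩
  filter_upwards [h2, (TorusBundle.isOpen_U i).mem_nhds hi'] with p' hp' hpi j hj v x hx
  obtain ⟨y, hy⟩ := TorusBundle.Divisor.exists_real hpi (Y.A i j p' *ᵥ v + Y.c i j p')
  have hy2 : Y.P i p' *ᵥ (fun l => ((y l : ℝ) : ℂ)) =
      Y.P i p' *ᵥ (fun l => ((Int.fract (y l) : ℝ) : ℂ)) + Y.P i p' *ᵥ ic fun l => ⌊y l⌋ := by
    rw [← Matrix.mulVec_add]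
    congr 1
    funext l
    simp only [ic, Pi.add_apply]
    have := Int.fract_add_floor (y l)
    exact_mod_cast this.symm
  obtain ⟨u, T', hu, hxu, hT, hT0⟩ := exists_unitary (Y.M i j p' * x) (by
    rw [Matrix.det_mul]
    exact mul_ne_zero (Y.det_M i j p' ⟨hpi, hj⟩) hx)
  obtain ⟨G, hG, hne⟩ := hp' (fun l => Int.fract (y l), u)
    ⟨⟨fun l => Int.fract_nonneg _, fun l => (Int.fract_lt_one _).le⟩, hu⟩
  obtain ⟨d', -, hsemi⟩ := hG.semi
  refine ⟨G, hG, fun h0 => ?_⟩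
  have h3 := hG.change i j p' ⟨hpi, hj⟩ v x
  rw [h0, mul_zero, one_pow, mul_one, ← hy, hy2, hG.period i p' hpi, ev_mul, ev_C, hxu] at h3
  exact ev_mul_upper hb (hsemi i p' hpi _) u T' hT hT0 hne
    ((mul_eq_zero.1 h3).resolve_left (pow_ne_zero _ (ee_ne_zero _)))

/-- Over a compact set of `B` one power is generated by its sections. -/
theorem exists_power (hb : Monotone b) (hm : 1 ≤ m)
    (hnef : IsFibreNef b fun j => d (b j) - m * anti b j) {Z : Set B} (hZ : IsCompact Z)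
    (hlc : ∀ p ∈ Z, ∀ i, p ∈ Y.U i → ∃ v₀, IsLogCanonical b m (D.F i p v₀)) :
    ∃ N, 1 ≤ N ∧ D.IsGenerated m (fun _ _ _ => 1) Z N := by
  have key : ∃ N, 1 ≤ N ∧ D.IsGenerated m (fun _ _ _ => 1) (Z ∩ Z) N := by
    refine hZ.induction_on (p := fun s => ∃ N, 1 ≤ N ∧ D.IsGenerated m (fun _ _ _ => 1) (s ∩ Z) N)
      ?_ ?_ ?_ ?_
    · exact ⟨1, le_refl 1, fun p hp => absurd hp.1 (Set.notMem_empty p)⟩
    · rintro s t hst ⟨N, hN, h⟩
      exact ⟨N, hN, fun p hp => h p ⟨hst hp.1, hp.2⟩⟩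
    · rintro s t ⟨N, hN, h⟩ ⟨N', hN', h'⟩
      refine ⟨N * N', Nat.mul_pos hN hN', ?_⟩
      rintro p ⟨hp | hp, hpZ⟩ i hi v x hx
      · obtain ⟨G, hG, hne⟩ := h p ⟨hp, hpZ⟩ i hi v x hx
        refine ⟨_, hG.pow N', ?_⟩
        rw [GIT.ev_pow]
        exact pow_ne_zero _ hne
      · obtain ⟨G, hG, hne⟩ := h' p ⟨hp, hpZ⟩ i hi v x hx
        refine ⟨_, hG.pow' N, ?_⟩
        rw [GIT.ev_pow]
        exact pow_ne_zero _ hne
    · intro p hp
      obtain ⟨N, hN, h⟩ := D.exists_near hb hm hnef p (hlc p hp)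
      exact ⟨_, mem_nhdsWithin_of_mem_nhds h, N, hN, fun p' hp' => hp'.1⟩
  rwa [Set.inter_self] at key

variable {D} in
/-- The product with a section of a line bundle on the base. -/
theorem IsSection.mul_base {N N' : ℕ} {μ : ι → ι → B → ℂ}
    {G : ι → B → (Fin g → ℂ) → MvPolynomial (Fin q × Fin q) ℂ}
    (hG : D.IsSection m (fun _ _ _ => 1) N G) {s : ι → B → ℂ}
    (hs : Y.IsSectionOf μ N' s) :
    D.IsSection m μ (N * N') fun i p v => C (s i p ^ N) * G i p v ^ N' where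
  holo a i := by
    rintro ⟨p, v⟩ ⟨hp, -⟩
    have h1 : HolC (𝓘(ℂ, Fin n → ℂ).prod 𝓘(ℂ, Fin g → ℂ))
        (fun z : B × (Fin g → ℂ) => G i z.1 z.2) (p, v) := fun a => (hG.holo a).at hp v
    have hfst : MDifferentiableAt (𝓘(ℂ, Fin n → ℂ).prod 𝓘(ℂ, Fin g → ℂ)) 𝓘(ℂ, Fin n → ℂ)
      (fun z : B × (Fin g → ℂ) => z.1) (p, v) := mdifferentiableAt_fst
    have h2 : MDifferentiableAt (𝓘(ℂ, Fin n → ℂ).prod 𝓘(ℂ, Fin g → ℂ)) 𝓘(ℂ)
        (fun z : B × (Fin g → ℂ) => s i z.1 ^ N) (p, v) :=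
      (((hs.holo i).mdifferentiableAt ((TorusBundle.isOpen_U i).mem_nhds hp)).comp (p, v) hfst).pow N
    exact ((h1.pow N').C_mul h2 a).mdifferentiableWithinAt
  semi := by
    obtain ⟨d', hd', hsemi⟩ := hG.semi
    refine ⟨fun k => N' * d' k, fun k => ?_, fun i p hp v => ?_⟩
    · push_cast
      rw [hd']
      ring
    · exact GIT.semi_pow_mul (hsemi i p hp v) N' (fun _ => rfl) _
  period i p hp k v := by
    rw [hG.period i p hp, mul_pow, pow_mul, C_pow (ee _ ^ N)]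
    ring
  change i j p hp v x := by
    have h1 := hG.change i j p hp v x
    have h2 := hs.eq i j p hp
    rw [one_pow, mul_one] at h1
    rw [ev_mul, ev_mul, ev_C, ev_C, GIT.ev_pow, GIT.ev_pow, h1, ← h2]
    ring

variable {D} in
theorem IsGenerated.mul_base {N N' : ℕ} {μ : ι → ι → B → ℂ} {Z : Set B}
    (hN : D.IsGenerated m (fun _ _ _ => 1) Z N)
    (hN' : ∀ p ∈ Z, ∃ s, Y.IsSectionOf μ N' s ∧ ∀ i, p ∈ Y.U i → s i p ≠ 0) :
    D.IsGenerated m μ Z (N * N') := by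
  intro p hp i hi v x hx
  obtain ⟨G, hG, hne⟩ := hN p hp i hi v x hx
  obtain ⟨s, hs, hnes⟩ := hN' p hp
  refine ⟨_, hG.mul_base hs, ?_⟩
  rw [ev_mul, ev_C, GIT.ev_pow]
  exact mul_ne_zero (pow_ne_zero _ (hnes i hi)) (pow_ne_zero _ hne)

end HomogeneousBundle.Divisor

/-- A section of `λ ^ N` gives a section of `(λ ^ m) ^ N`. -/
theorem isSectionOf_relative {N : ℕ} {s : ι → B → ℂ} (hs : Y.toTorusBundle.IsSection N s) (m : ℕ) :
    Y.IsSectionOf (Y.relative m) N fun i p => s i p ^ m where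
  holo i := (hs.holo i).pow m
  eq i j p hp := by
    have h1 := hs.eq i j p hp
    rw [← h1, HomogeneousBundle.relative]
    ring

end H18.HF
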