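import Pool.Agent.H18.HF.Unitary

/-!
# Sections from covariants and torsion translates
-/

set_option autoImplicit false

namespace H18.HF

open H18.TF Q47.FL MvPolynomial Matrix Topology Filter
open scoped Manifold ContDiff

universe u v

variable {n : ℕ} {B : Type u} [TopologicalSpace B] [ChartedSpace (Fin n → ℂ) B] {g q : ℕ}
  {ι : Type v} {Y : HomogeneousBundle n B g q ι} {b : Fin q → ℕ} {d : ℕ → ℕ}

theorem hom_of_semi' {d' : ℕ → ℕ} {f : MvPolynomial (Fin q × Fin q) ℂ}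
    (hf : IsSemiInvariant b d' f) : f.IsHomogeneous (∑ j, d' (b j)) := GIT.hom_of_semi hf

/-- The joint continuity of the values. -/
theorem continuousAt_joint {d' : ℕ → ℕ} {G : ι → B → (Fin g → ℂ) → MvPolynomial (Fin q × Fin q) ℂ}
    (holo : ∀ a, Y.HoloTotal fun i p v => coeff a (G i p v))
    (semi : ∀ i, ∀ p ∈ Y.U i, ∀ v, IsSemiInvariant b d' (G i p v)) {i : ι} {p : B} (hp : p ∈ Y.U i)
    (v : Fin g → ℂ) (y : Matrix (Fin q) (Fin q) ℂ) :
    ContinuousAt (fun z : (B × (Fin g → ℂ)) × Matrix (Fin q) (Fin q) ℂ =>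
      ev z.2 (G i z.1.1 z.1.2)) ((p, v), y) := by
  refine continuousAt_ev (D := ∑ j, d' (b j)) ?_ ?_ continuousAt_snd
  · have h1 : ∀ᶠ z : (B × (Fin g → ℂ)) × Matrix (Fin q) (Fin q) ℂ in 𝓝 ((p, v), y),
        z.1.1 ∈ Y.U i :=
      (continuousAt_fst.comp (f := fun z : (B × (Fin g → ℂ)) × Matrix (Fin q) (Fin q) ℂ => z.1)
        continuousAt_fst).eventually_mem ((TorusBundle.isOpen_U i).mem_nhds hp)
    filter_upwards [h1] with z hz
    exact hom_of_semi' (semi i z.1.1 hz z.1.2)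
  · intro a
    exact ContinuousAt.comp (f := fun z : (B × (Fin g → ℂ)) × Matrix (Fin q) (Fin q) ℂ => z.1)
      (g := fun z : B × (Fin g → ℂ) => coeff a (G i z.1 z.2)) ((holo a).at hp v).continuousAt
      continuousAt_fst

theorem continuous_ev {d' : ℕ → ℕ} {G : ι → B → (Fin g → ℂ) → MvPolynomial (Fin q × Fin q) ℂ}
    (holo : ∀ a, Y.HoloTotal fun i p v => coeff a (G i p v))
    (semi : ∀ i, ∀ p ∈ Y.U i, ∀ v, IsSemiInvariant b d' (G i p v)) {i : ι} {p : B} (hp : p ∈ Y.U i)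
    (y : Matrix (Fin q) (Fin q) ℂ) : Continuous fun v => ev y (G i p v) := by
  rw [continuous_iff_continuousAt]
  intro v
  have h1 := continuousAt_joint holo semi hp v y
  have h2 : ContinuousAt (fun v : Fin g → ℂ => ((p, v), y)) v := by fun_prop
  exact ContinuousAt.comp (f := fun v : Fin g → ℂ => ((p, v), y))
    (g := fun z : (B × (Fin g → ℂ)) × Matrix (Fin q) (Fin q) ℂ => ev z.2 (G i z.1.1 z.1.2)) h1 h2

theorem exists_ev_ne_zero {f : MvPolynomial (Fin q × Fin q) ℂ} (hf : f ≠ 0) :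
    ∃ y : Matrix (Fin q) (Fin q) ℂ, ev y f ≠ 0 := by
  by_contra h
  push Not at h
  apply hf
  apply GIT.eq_of_ev
  intro x
  rw [h x]
  exact (map_zero (eval fun x' : Fin q × Fin q => x x'.1 x'.2)).symm

namespace HomogeneousBundle.Divisor

variable (D : Y.Divisor b d)

theorem factor {i : ι} {p : B} (hp : p ∈ Y.U i) : Factor (Y.P i p) (D.α i p) (D.β i p) := by
  obtain ⟨v₀, hv₀⟩ := D.exists_ne_zero i p hp
  obtain ⟨y, hy⟩ := exists_ev_ne_zero hv₀
  exact factor_of (F := fun v => ev y (D.F i p v))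
    (fun k v => by rw [D.period i p hp, ev_mul, ev_C]) ⟨v₀, hy⟩

theorem chg {i j : ι} {p : B} (hp : p ∈ Y.U i ∩ Y.U j) :
    Change (Y.P i p) (Y.P j p) (D.α i p) (D.α j p) (D.β i p) (D.β j p) (Y.A i j p) (Y.c i j p)
      (Y.γ i j p) (D.S i j p) (D.r i j p) (D.s i j p) := by
  obtain ⟨v₀, hv₀⟩ := D.exists_ne_zero j p hp.2
  obtain ⟨y, hy⟩ := exists_ev_ne_zero hv₀
  exact change_of (F := fun v => ev (Y.M i j p * y) (D.F i p v)) (F' := fun v => ev y (D.F j p v))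
    (D.symm i j p hp) (Y.A_mul_P i j p hp) (fun k v => by rw [D.period i p hp.1, ev_mul, ev_C])
    (fun k v => by rw [D.period j p hp.2, ev_mul, ev_C]) (fun v => D.change i j p hp v y) ⟨v₀, hy⟩
    (continuous_ev D.holo_F D.semi hp.2 y)

/-- The exponential factors of the translates. -/
theorem holo_expo {i : ι} {p : B} (hp : p ∈ Y.U i) (v : Fin g → ℂ) (x : Fin (2 * g) → ℂ) (N : ℂ) :
    MDifferentiableAt (𝓘(ℂ, Fin n → ℂ).prod 𝓘(ℂ, Fin g → ℂ)) 𝓘(ℂ)
      (fun z : B × (Fin g → ℂ) => ee (-(1 / 2) * bil (N • D.α i z.1) x (Y.P i z.1 *ᵥ x) -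
        (1 / 2) * (x ⬝ᵥ Factor.ell (Y.P i z.1) (N • D.α i z.1) (fun k => N * D.β i z.1 k)) -
        bil (N • D.α i z.1) x z.2)) (p, v) := by
  have hfst : MDifferentiableAt (𝓘(ℂ, Fin n → ℂ).prod 𝓘(ℂ, Fin g → ℂ)) 𝓘(ℂ, Fin n → ℂ)
      (fun z : B × (Fin g → ℂ) => z.1) (p, v) := mdifferentiableAt_fst
  have hsnd : MDifferentiableAt (𝓘(ℂ, Fin n → ℂ).prod 𝓘(ℂ, Fin g → ℂ)) 𝓘(ℂ, Fin g → ℂ)
      (fun z : B × (Fin g → ℂ) => z.2) (p, v) := mdifferentiableAt_snd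
  have hU : Y.U i ∈ 𝓝 p := (TorusBundle.isOpen_U i).mem_nhds hp
  have hP : MDifferentiableAt (𝓘(ℂ, Fin n → ℂ).prod 𝓘(ℂ, Fin g → ℂ))
      𝓘(ℂ, Fin g → Fin (2 * g) → ℂ)
      (fun (z : B × (Fin g → ℂ)) (a : Fin g) (l : Fin (2 * g)) => Y.P i z.1 a l) (p, v) :=
    mdifferentiableAt_pi' fun a => mdifferentiableAt_pi' fun l =>
      ((Y.holo_P i a l).mdifferentiableAt hU).comp (p, v) hfst
  have hα : MDifferentiableAt (𝓘(ℂ, Fin n → ℂ).prod 𝓘(ℂ, Fin g → ℂ))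
      𝓘(ℂ, Fin (2 * g) → Fin g → ℂ)
      (fun (z : B × (Fin g → ℂ)) (a : Fin (2 * g)) (l : Fin g) => N * D.α i z.1 a l) (p, v) :=
    mdifferentiableAt_pi' fun a => mdifferentiableAt_pi' fun l =>
      mdifferentiableAt_const.mul (((D.holo_α i a l).mdifferentiableAt hU).comp (p, v) hfst)
  have hβ : MDifferentiableAt (𝓘(ℂ, Fin n → ℂ).prod 𝓘(ℂ, Fin g → ℂ))
      𝓘(ℂ, Fin (2 * g) → ℂ)
      (fun z : B × (Fin g → ℂ) => fun l => N * D.β i z.1 (Pi.single l 1)) (p, v) :=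
    mdifferentiableAt_pi' fun l => mdifferentiableAt_const.mul
      (((D.holo_β i (Pi.single l 1)).mdifferentiableAt hU).comp (p, v) hfst)
  have hall := (hP.prodMk_space hα).prodMk_space (hβ.prodMk_space hsnd)
  have h1 := ((TorusBundle.Divisor.expo_differentiable (g := g) x).mdifferentiable _).comp (p, v) hall
  refine h1.congr_of_eventuallyEq (Eventually.of_forall fun z => ?_)
  have h2 := TorusBundle.Divisor.tr_eq_expo (Y.P i z.1) (N • D.α i z.1) (fun k => N * D.β i z.1 k)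
    (fun _ => 1) x z.2
  rw [tr, mul_one, mul_one] at h2
  exact h2

/-- The section which is given by a covariant and the torsion translates of order `e`. -/
noncomputable def sec {Dg : ℕ} (c : MvPolynomial (Fin q × Fin q) (GIT.Cf q Dg)) (N : ℕ) (e : ℕ)
    [NeZero e] (K : ℕ) (i : ι) (p : B) (v : Fin g → ℂ) : MvPolynomial (Fin q × Fin q) ℂ :=
  psump (Y.P i p) ((N : ℂ) • D.α i p) (fun k => N * D.β i p k) (fun v => GIT.evC c (D.F i p v)) e K v

theorem holo_sec {Dg : ℕ} (c : MvPolynomial (Fin q × Fin q) (GIT.Cf q Dg)) (N : ℕ) (e : ℕ)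
    [NeZero e] (K : ℕ) (a : Fin q × Fin q →₀ ℕ) :
    Y.HoloTotal fun i p v => coeff a (D.sec c N e K i p v) := by
  rintro i ⟨p, v⟩ ⟨hp, -⟩
  refine MDifferentiableAt.mdifferentiableWithinAt ?_
  have hU : Y.U i ∈ 𝓝 p := (TorusBundle.isOpen_U i).mem_nhds hp
  have h0 : HolC (𝓘(ℂ, Fin n → ℂ).prod 𝓘(ℂ, Fin g → ℂ))
      (fun z : B × (Fin g → ℂ) => D.sec c N e K i z.1 z.2) (p, v) := by
    refine HolC.sum fun t _ => HolC.pow ?_ _
    refine HolC.C_mul ?_ (D.holo_expo hp v _ N)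
    refine HolC.evC ?_ c
    set x : Fin (2 * g) → ℂ := (1 / e : ℂ) • ic (rep t) with hx
    have hfst : MDifferentiableAt (𝓘(ℂ, Fin n → ℂ).prod 𝓘(ℂ, Fin g → ℂ)) 𝓘(ℂ, Fin n → ℂ)
        (fun z : B × (Fin g → ℂ) => z.1) (p, v) := mdifferentiableAt_fst
    have hsnd : MDifferentiableAt (𝓘(ℂ, Fin n → ℂ).prod 𝓘(ℂ, Fin g → ℂ)) 𝓘(ℂ, Fin g → ℂ)
        (fun z : B × (Fin g → ℂ) => z.2) (p, v) := mdifferentiableAt_snd
    have hP : MDifferentiableAt (𝓘(ℂ, Fin n → ℂ).prod 𝓘(ℂ, Fin g → ℂ))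
        𝓘(ℂ, Fin g → Fin (2 * g) → ℂ)
        (fun (z : B × (Fin g → ℂ)) (a : Fin g) (l : Fin (2 * g)) => Y.P i z.1 a l) (p, v) :=
      mdifferentiableAt_pi' fun a => mdifferentiableAt_pi' fun l =>
        ((Y.holo_P i a l).mdifferentiableAt hU).comp (p, v) hfst
    have hv : MDifferentiableAt (𝓘(ℂ, Fin n → ℂ).prod 𝓘(ℂ, Fin g → ℂ)) 𝓘(ℂ, Fin g → ℂ)
        (fun z : B × (Fin g → ℂ) => z.2 + Y.P i z.1 *ᵥ x) (p, v) := by
      have h2 : Differentiable ℂ (fun z : (Fin g → Fin (2 * g) → ℂ) × (Fin g → ℂ) =>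
          fun a => z.2 a + ∑ l, z.1 a l * x l) := by
        fun_prop
      have h3 := (h2.mdifferentiable _).comp (p, v) (hP.prodMk_space hsnd)
      exact h3
    intro a'
    exact ((D.holo_F a').at hp (v + Y.P i p *ᵥ x)).comp (p, v)
      (f := fun z : B × (Fin g → ℂ) => (z.1, z.2 + Y.P i z.1 *ᵥ x)) (hfst.prodMk hv)
  exact h0 a

theorem ev_sec {Dg : ℕ} (c : MvPolynomial (Fin q × Fin q) (GIT.Cf q Dg)) (N : ℕ) (e : ℕ)
    [NeZero e] (K : ℕ) (i : ι) (p : B) (v : Fin g → ℂ) (y : Matrix (Fin q) (Fin q) ℂ) :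
    ev y (D.sec c N e K i p v) = TF.psum (Y.P i p) ((N : ℂ) • D.α i p) (fun k => N * D.β i p k)
      (fun v => ev y (GIT.evC c (D.F i p v))) e K v := ev_psump y e K v

theorem ee_scale (N : ℕ) {h : ℕ} (α : Matrix (Fin h) (Fin g) ℂ) (x : Fin h → ℂ) (v : Fin g → ℂ)
    (z : ℂ) (k : ℕ) : ee (bil ((N : ℂ) • α) x v + N * z) ^ k = ee (bil α x v + z) ^ (N * k) := by
  rw [bil_scale, ← mul_add, ee_nat_mul, ← pow_mul]

theorem ee_quad_scale (N : ℕ) (S : Matrix (Fin g) (Fin g) ℂ) (r : Fin g → ℂ) (s : ℂ)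
    (v : Fin g → ℂ) (k : ℕ) :
    ee (quad ((N : ℂ) • S) ((N : ℂ) • r) (N * s) v) ^ k = ee (quad S r s v) ^ (N * k) := by
  rw [quad_scale, ee_nat_mul, ← pow_mul]

/-- The power sums of the torsion translates of covariants are sections. -/
theorem isSection_sec {m : ℕ} {l : Fin q → ℕ} (hlb : ∀ i j, b i = b j → l i = l j)
    (hld : ∀ j, (l j : ℤ) = d (b j) - m * anti b j) {N : ℕ}
    {c : MvPolynomial (Fin q × Fin q) (GIT.Cf q (∑ j, d (b j)))}
    (hc : GIT.IsCov b l (∑ j, d (b j)) N c) (e : ℕ) [NeZero e] (K : ℕ) :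
    D.IsSection m (fun _ _ _ => 1) (N * (2 * e * K)) (D.sec c N e K) := by
  obtain ⟨d', hd'⟩ := GIT.exists_d' b (fun j => (N * (2 * e * K)) * l j) fun i j hij => by
    rw [hlb i j hij]
  refine ⟨D.holo_sec c N e K, ⟨d', fun j => ?_, fun i p hp v => ?_⟩, fun i p hp k v => ?_,
    fun i j p hp v x => ?_⟩
  · rw [hd', ← hld]
    push_cast
    ring
  · have hhom : ∀ v, (D.F i p v).IsHomogeneous (∑ j, d (b j)) := fun v => hom_of_semi' (D.semi i p hp v)
    refine ⟨fun y j t => ?_, fun y j k t hjk hbjk => ?_⟩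
    · rw [D.ev_sec, D.ev_sec, TF.psum, TF.psum, Finset.mul_sum]
      refine Finset.sum_congr rfl fun z _ => ?_
      rw [T, T, tr, tr, hc.scale _ (hhom _), hd']
      ring
    · rw [D.ev_sec, D.ev_sec, TF.psum, TF.psum]
      refine Finset.sum_congr rfl fun z _ => ?_
      rw [T, T, tr, tr, hc.shear _ (hhom _) _ _ _ _ hjk hbjk]
  · apply GIT.eq_of_ev
    intro y
    rw [ev_mul, ev_C, D.ev_sec, D.ev_sec]
    have h1 := psum_add_period (d := e) (F := fun v => ev y (GIT.evC c (D.F i p v)))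
      (factor_scale (D.factor hp) N) (fun k v => by
        have hhom := hom_of_semi' (D.semi i p hp v)
        rw [D.period i p hp, hc.smul _ hhom, ev_mul, ev_C, bil_scale, ← mul_add, ee_nat_mul]) K k v
    rw [h1, ee_scale]
  · rw [one_pow, mul_one, D.ev_sec, D.ev_sec]
    have hper : ∀ k v, ev (Y.M i j p * x) (GIT.evC c (D.F i p (v + Y.P i p *ᵥ ic k))) =
        ee (bil ((N : ℂ) • D.α i p) (ic k) v + N * D.β i p k) *
          ev (Y.M i j p * x) (GIT.evC c (D.F i p v)) := by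
      intro k v
      rw [D.period i p hp.1, hc.smul _ (hom_of_semi' (D.semi i p hp.1 v)), ev_mul, ev_C, bil_scale,
        ← mul_add, ee_nat_mul]
    have hch : ∀ v, ev (Y.M i j p * x) (GIT.evC c (D.F i p (Y.A i j p *ᵥ v + Y.c i j p))) =
        ee (quad ((N : ℂ) • D.S i j p) ((N : ℂ) • D.r i j p) (N * D.s i j p) v) *
          ev x (GIT.evC c (D.F j p v)) := by
      intro v
      have hhom := hom_of_semi' (D.semi i p hp.1 (Y.A i j p *ᵥ v + Y.c i j p))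
      have hhom' := hom_of_semi' (D.semi j p hp.2 v)
      have h1 : GIT.sm (Y.M i j p) (D.F i p (Y.A i j p *ᵥ v + Y.c i j p)) =
          C (ee (quad (D.S i j p) (D.r i j p) (D.s i j p) v)) * D.F j p v := by
        apply GIT.eq_of_ev
        intro y
        rw [GIT.ev_sm, D.change i j p hp v y, ev_mul, ev_C]
      rw [← GIT.ev_sm, ← hc.left _ hhom _ (Y.det_M i j p hp), h1, hc.smul _ hhom', ev_mul, ev_C,
        quad_scale, ee_nat_mul]
    have h1 := psum_change (d := e) (F := fun v => ev (Y.M i j p * x) (GIT.evC c (D.F i p v)))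
      (F' := fun v => ev x (GIT.evC c (D.F j p v))) (Y.det_γ i j p hp)
      (change_scale (D.chg hp) N) (factor_scale (D.factor hp.1) N) (factor_scale (D.factor hp.2) N)
      hper hch K v
    rw [h1, ee_quad_scale]

end HomogeneousBundle.Divisor

end H18.HF
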