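import Pool.Agent.H18.HF.Alg

/-!
# Flag varieties are compact
-/

set_option autoImplicit false

namespace H18.HF

open Q47.FL MvPolynomial Matrix Topology
open scoped ComplexConjugate

variable {q : ℕ}

/-- Adding a linear combination of previous columns. -/
theorem ev_shear_sum {b : Fin q → ℕ} (hb : Monotone b) {d : ℕ → ℕ}
    {G : MvPolynomial (Fin q × Fin q) ℂ} (hG : IsSemiInvariant b d G)
    (w : Matrix (Fin q) (Fin q) ℂ) (k : Fin q) (a : Fin q → ℂ) (s : Finset (Fin q))
    (hs : ∀ j ∈ s, j < k) :
    ev (w.updateCol k fun i => w i k + ∑ j ∈ s, a j * w i j) G = ev w G := by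
  classical
  induction s using Finset.induction_on with
  | empty => simp
  | insert j s hj ih =>
    have hjk : j < k := hs j (Finset.mem_insert_self j s)
    have ih' := ih fun j' hj' => hs j' (Finset.mem_insert_of_mem hj')
    set w' := w.updateCol k fun i => w i k + ∑ j ∈ s, a j * w i j with hw'
    have h1 := hG.shear w' j k (a j) hjk.ne (hb hjk.le)
    rw [ih'] at h1
    rw [← h1]
    congr 1
    ext i l
    by_cases hl : l = k
    · subst hl
      rw [Matrix.updateCol_self, Matrix.updateCol_self, hw', Matrix.updateCol_self,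
        Matrix.updateCol_ne hjk.ne, Finset.sum_insert hj]
      ring
    · rw [Matrix.updateCol_ne hl, Matrix.updateCol_ne hl, hw', Matrix.updateCol_ne hl]

/-- Multiplication by an invertible upper triangular matrix. -/
theorem ev_mul_upper {b : Fin q → ℕ} (hb : Monotone b) {d : ℕ → ℕ}
    {G : MvPolynomial (Fin q × Fin q) ℂ} (hG : IsSemiInvariant b d G)
    (u T : Matrix (Fin q) (Fin q) ℂ) (hT : ∀ i j, j < i → T i j = 0) (hT0 : ∀ j, T j j ≠ 0)
    (hne : ev u G ≠ 0) : ev (u * T) G ≠ 0 := by
  classical
  have key : ∀ k : ℕ, k ≤ q →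
      ev (Matrix.of fun i l => if (l : ℕ) < q - k then u i l else (u * T) i l) G ≠ 0 := by
    intro k
    induction k with
    | zero =>
      intro _
      have h1 : (Matrix.of fun i l : Fin q => if (l : ℕ) < q - 0 then u i l else (u * T) i l) = u := by
        ext i l
        simp
      rwa [h1]
    | succ k ih =>
      intro hk
      have ih' := ih (by omega)
      set W : Matrix (Fin q) (Fin q) ℂ :=
        Matrix.of fun i l => if (l : ℕ) < q - k then u i l else (u * T) i l with hW
      let k' : Fin q := ⟨q - (k + 1), by omega⟩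
      set W₁ : Matrix (Fin q) (Fin q) ℂ := W.updateCol k' fun i => T k' k' * W i k' with hW₁
      have h1 : ev W₁ G ≠ 0 := by
        rw [hW₁, hG.scale]
        exact mul_ne_zero (pow_ne_zero _ (hT0 _)) ih'
      have h2 := ev_shear_sum hb hG W₁ k' (fun j => T j k') (Finset.univ.filter (· < k'))
        fun j hj => (Finset.mem_filter.1 hj).2
      rw [← h2] at h1
      convert h1 using 2
      ext i l
      by_cases hl : l = k'
      · have hlv : ¬ ((l : ℕ) < q - (k + 1)) := by
          rw [hl]; simp [k']
        rw [hl, Matrix.updateCol_self, hW₁, Matrix.updateCol_self, Matrix.of_apply,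
          if_neg (by rw [hl] at hlv; exact hlv), Matrix.mul_apply,
          ← Finset.add_sum_erase _ _ (Finset.mem_univ k')]
        have h3 : W i k' = u i k' := by
          rw [hW, Matrix.of_apply, if_pos]
          show q - (k + 1) < q - k
          omega
        rw [h3, mul_comm (T k' k')]
        congr 1
        rw [Finset.sum_filter, ← Finset.add_sum_erase Finset.univ _ (Finset.mem_univ k'),
          if_neg (lt_irrefl _), zero_add]
        refine Finset.sum_congr rfl fun j hj => ?_
        have hjk : j ≠ k' := (Finset.mem_erase.1 hj).1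
        by_cases hlt : j < k'
        · rw [if_pos hlt, Matrix.updateCol_ne hjk, hW, Matrix.of_apply, if_pos, mul_comm]
          have : (j : ℕ) < q - (k + 1) := hlt
          omega
        · rw [if_neg hlt, hT j k' (lt_of_le_of_ne (not_lt.1 hlt) (Ne.symm hjk)), mul_zero]
      · rw [Matrix.updateCol_ne hl, hW₁, Matrix.updateCol_ne hl, hW, Matrix.of_apply,
          Matrix.of_apply]
        have hne' : (l : ℕ) ≠ q - (k + 1) := fun h => hl (Fin.ext h)
        by_cases h3 : (l : ℕ) < q - (k + 1)
        · rw [if_pos h3, if_pos (by omega)]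
        · rw [if_neg h3, if_neg (by omega)]
  have h1 := key q le_rfl
  have h2 : (Matrix.of fun i l : Fin q => if (l : ℕ) < q - q then u i l else (u * T) i l) = u * T := by
    ext i l
    simp
  rwa [h2] at h1

/-- Every invertible matrix is the product of a unitary matrix and an invertible upper triangular
matrix. -/
theorem exists_unitary (x : Matrix (Fin q) (Fin q) ℂ) (hx : x.det ≠ 0) :
    ∃ u T : Matrix (Fin q) (Fin q) ℂ, uᴴ * u = 1 ∧ x = u * T ∧ (∀ i j, j < i → T i j = 0) ∧
      ∀ j, T j j ≠ 0 := by
  classical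
  let f : Fin q → EuclideanSpace ℂ (Fin q) := fun j => WithLp.toLp 2 fun i => x i j
  have hdim : Module.finrank ℂ (EuclideanSpace ℂ (Fin q)) = Fintype.card (Fin q) := by simp
  let e := InnerProductSpace.gramSchmidtOrthonormalBasis hdim f
  let u : Matrix (Fin q) (Fin q) ℂ := Matrix.of fun i j => (e j) i
  let T : Matrix (Fin q) (Fin q) ℂ := Matrix.of fun j k => inner ℂ (e j) (f k)
  have hu : uᴴ * u = 1 := by
    ext j k
    rw [Matrix.mul_apply]
    have h1 := (orthonormal_iff_ite.1 e.orthonormal) j k
    rw [EuclideanSpace.inner_eq_star_dotProduct] at h1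
    rw [Matrix.one_apply, ← h1]
    simp only [dotProduct, Matrix.conjTranspose_apply, u, Matrix.of_apply]
    refine Finset.sum_congr rfl fun i _ => ?_
    rw [mul_comm]
    rfl
  have hxu : x = u * T := by
    ext i k
    rw [Matrix.mul_apply]
    have h1 := e.sum_repr (f k)
    have h2 := congrArg (fun z : EuclideanSpace ℂ (Fin q) => z i) h1
    simp only at h2
    have h3 : (f k) i = x i k := rfl
    rw [h3] at h2
    rw [← h2]
    simp only [WithLp.ofLp_sum, Finset.sum_apply, WithLp.ofLp_smul, Pi.smul_apply, smul_eq_mul, u, T,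
      Matrix.of_apply, e.repr_apply_apply]
    refine Finset.sum_congr rfl fun j _ => ?_
    ring
  have hT : ∀ i j, j < i → T i j = 0 := by
    intro i j hij
    exact InnerProductSpace.gramSchmidtOrthonormalBasis_inv_triangular hdim f hij
  refine ⟨u, T, hu, hxu, hT, fun j hj => hx ?_⟩
  have h4 : T.det = ∏ j, T j j := Matrix.det_of_isUpperTriangular (fun i j hij => hT i j hij)
  have h5 : ∏ j, T j j = 0 := Finset.prod_eq_zero (Finset.mem_univ j) hj
  rw [hxu, Matrix.det_mul, h4, h5, mul_zero]

theorem isCompact_unitary (q : ℕ) : IsCompact {u : Matrix (Fin q) (Fin q) ℂ | uᴴ * u = 1} := by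
  have h1 : IsCompact (Set.pi Set.univ fun _ : Fin q => Set.pi Set.univ fun _ : Fin q =>
      Metric.closedBall (0 : ℂ) 1) :=
    isCompact_univ_pi fun _ => isCompact_univ_pi fun _ => isCompact_closedBall 0 1
  have h2 : IsClosed {u : Matrix (Fin q) (Fin q) ℂ | uᴴ * u = 1} := by
    refine isClosed_eq ?_ continuous_const
    exact (Continuous.matrix_conjTranspose continuous_id).matrix_mul continuous_id
  refine h1.of_isClosed_subset h2 fun u' hu' => ?_
  obtain ⟨u, rfl⟩ : ∃ u : Matrix (Fin q) (Fin q) ℂ, u = u' := ⟨u', rfl⟩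
  have hu : uᴴ * u = 1 := hu'
  intro i _ j _
  rw [mem_closedBall_zero_iff]
  have h3 : (uᴴ * u) j j = 1 := by rw [hu, Matrix.one_apply_eq]
  rw [Matrix.mul_apply] at h3
  have h4 : ∑ i, ‖u i j‖ ^ 2 = 1 := by
    have h5 : ∀ i, uᴴ j i * u i j = ((‖u i j‖ ^ 2 : ℝ) : ℂ) := by
      intro i
      rw [Matrix.conjTranspose_apply, ← Complex.normSq_eq_norm_sq, Complex.normSq_eq_conj_mul_self]
      rfl
    simp only [h5] at h3
    exact_mod_cast h3
  have h6 : ‖u i j‖ ^ 2 ≤ 1 := by
    rw [← h4]
    exact Finset.single_le_sum (f := fun i => ‖u i j‖ ^ 2) (fun i _ => sq_nonneg _) (Finset.mem_univ i)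
  nlinarith [norm_nonneg (u i j)]

theorem det_ne_zero_of_unitary {u : Matrix (Fin q) (Fin q) ℂ} (hu : uᴴ * u = 1) : u.det ≠ 0 := by
  intro h0
  have h1 := congrArg Matrix.det hu
  rw [Matrix.det_mul, h0, mul_zero, Matrix.det_one] at h1
  exact zero_ne_one h1

end H18.HF
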